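import Pool.Agent.Lib.helper10.Occ3

namespace Pool.Agent.Results.MP_b9c7f5_lc.NPHard

open Pool.Agent.Cx Pool.Agent.Cx.Oc SimpleGraph Finset

/-- the replicated graph `G_x` -/
def rep {V : Type} (G : SimpleGraph V) (x : V → ℕ) : SimpleGraph (Σ v, Fin (x v)) :=
  fromRel fun a b => a.1 = b.1 ∨ G.Adj a.1 b.1

/-- the fractional chromatic number -/
noncomputable def chiF {V : Type} [Fintype V] [DecidableEq V] (H : SimpleGraph V) : ℝ :=
  sInf {s | ∃ w : Finset V → ℝ, (∀ I, 0 ≤ w I) ∧ (∀ I, w I ≠ 0 → H.IsIndepSet I) ∧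
    (∀ v, 1 ≤ ∑ I with v ∈ I, w I) ∧ ∑ I, w I = s}

/-- `M` is a graph with imperfection ratio at most `t` -/
def ImpLe (t : ℝ) (M : List (List Bool)) : Prop :=
  IsGraph M ∧ ∀ x : Fin M.length → ℕ, x ≠ 0 →
    chiF (rep (graphOf M) x) / (rep (graphOf M) x).cliqueNum ≤ t

section
variable {V : Type} [Fintype V] [DecidableEq V] {H : SimpleGraph V}

lemma feas {γ : Type} (K : Finset γ) (I : γ → Finset V) {b : ℕ} (hb : 0 < b)
    (ind : ∀ c ∈ K, H.IsIndepSet (I c)) (cov : ∀ v, b ≤ #{c ∈ K | v ∈ I c}) :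
    ∃ w : Finset V → ℝ, (∀ I, 0 ≤ w I) ∧ (∀ I, w I ≠ 0 → H.IsIndepSet I) ∧
      (∀ v, 1 ≤ ∑ I with v ∈ I, w I) ∧ ∑ I, w I = #K / b := by
  refine ⟨fun J => #{c ∈ K | I c = J} / b, fun J => by positivity, fun J h => ?_, fun v => ?_, ?_⟩
  · obtain ⟨c, e⟩ : {c ∈ K | I c = J}.Nonempty := card_pos.1 (Nat.pos_of_ne_zero fun e => h (by simp [e]))
    simp only [mem_filter] at e
    exact e.2 ▸ ind c e.1
  · rw [← sum_div, ← Nat.cast_sum, one_le_div (by positivity), Nat.cast_le]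
    refine (cov v).trans_eq ((card_eq_sum_card_fiberwise (f := I) (t := {J | v ∈ J}) fun c h => by
      simp_all).trans (sum_congr rfl fun J h => ?_))
    congr 1; ext c; simp at h ⊢; grind
  · rw [← sum_div, ← Nat.cast_sum, ← card_eq_sum_card_fiberwise fun c _ => by simp]

lemma chi_le {γ : Type} (K : Finset γ) (I : γ → Finset V) {b : ℕ} (hb : 0 < b)
    (ind : ∀ c ∈ K, H.IsIndepSet (I c)) (cov : ∀ v, b ≤ #{c ∈ K | v ∈ I c}) : chiF H ≤ #K / b :=
  csInf_le ⟨0, fun _ ⟨_, h, _, _, e⟩ => e ▸ sum_nonneg fun I _ => h I⟩ (feas K I hb ind cov)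

lemma le_chi {a : ℕ} (h : ∀ I : Finset V, H.IsIndepSet I → #I ≤ a) :
    (Fintype.card V : ℝ) / a ≤ chiF H := by
  refine le_csInf ⟨_, feas univ (fun v => {v}) one_pos (by simp) fun v => card_pos.2 ⟨v, by simp⟩⟩ ?_
  rintro _ ⟨w, h1, h2, h3, rfl⟩
  refine div_le_of_le_mul₀ (by positivity) (sum_nonneg fun I _ => h1 I) ?_
  calc (Fintype.card V : ℝ) = ∑ _v : V, 1 := by simp
    _ ≤ ∑ v, ∑ I with v ∈ I, w I := sum_le_sum fun v _ => h3 v
    _ = ∑ I, w I * #I := by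
      simp only [sum_filter]; rw [sum_comm]; simp [mul_comm]
    _ ≤ _ := by
      rw [sum_mul]
      refine sum_le_sum fun I _ => ?_
      by_cases e : w I = 0
      · simp [e]
      · exact mul_le_mul_of_nonneg_left (Nat.cast_le.2 (h I (h2 I e))) (h1 I)

def C (i j : ℕ) : Prop := j = (i + 1) % 5 ∨ i = (j + 1) % 5
instance : DecidableRel C := fun _ _ => by unfold C; infer_instance

lemma up {p : V → ℕ} (h0 : ∀ v, p v < 5) (hp : ∀ u v, H.Adj u v → C (p u) (p v)) (x : V → ℕ) :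
    chiF (rep H x) / (rep H x).cliqueNum ≤ 5 / 4 := by
  obtain ⟨W, hW⟩ : ∃ W, W = (rep H x).cliqueNum := ⟨_, rfl⟩
  have cq : ∀ s : Finset V, H.IsClique s → ∑ v ∈ s, x v ≤ W := fun s h => by
    have : (rep H x).IsClique (s.sigma fun v => (univ : Finset (Fin (x v)))) := fun a p b q e => by
      simp only [coe_sigma, Set.mem_sigma_iff] at p q
      by_cases c : a.1 = b.1
      · simp [rep, e, c]
      · simp [rep, e, h p.1 q.1 c]
    simpa [hW] using this.card_le_cliqueNum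
  have w1 : ∀ v, x v ≤ W := fun v => by simpa using cq {v} (by simp)
  have w2 : ∀ u v, H.Adj u v → x u + x v ≤ W := fun u v h => by
    simpa [h.ne] using cq {u, v} (by simp [h])
  obtain ⟨S, hS⟩ : ∃ S : V → Finset (ℕ × ℕ), ∀ v, S v = Ico (2 * (W - x v)) W ×ˢ range 5 ∪
    range (min (2 * x v) (2 * (W - x v))) ×ˢ {(p v + 1) % 5, (p v + 4) % 5} := ⟨_, fun _ => rfl⟩
  have : ∀ v, Nonempty (Fin (x v) × Fin 4 ↪ S v) := fun v => Function.Embedding.nonempty_of_card_le (by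
    have := w1 v
    rw [Fintype.card_coe, hS, card_union_of_disjoint (disjoint_left.2 fun a => by simp; omega)]
    simp [card_pair (show (p v + 1) % 5 ≠ (p v + 4) % 5 by omega)]
    omega)
  obtain ⟨e⟩ := Classical.nonempty_pi.2 this
  have := chi_le (H := rep H x) (range W ×ˢ range 5) (fun c => {a | ∃ r, (e a.1 (a.2, r)).1 = c}) four_pos
    (fun c _ => ?_) fun a => ?_
  · rw [← hW]
    refine div_le_of_le_mul₀ (by positivity) (by positivity) (this.trans_eq ?_)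
    simp; ring
  · rintro ⟨u, i⟩ a ⟨v, j⟩ b n d
    simp only [coe_filter, mem_univ, true_and, Set.mem_ofPred_eq] at a b
    obtain ⟨r, a⟩ := a
    obtain ⟨s, b⟩ := b
    by_cases q : u = v
    · subst q
      obtain ⟨rfl, -⟩ := Prod.ext_iff.1 ((e u).injective (Subtype.ext (a.trans b.symm)))
      exact n rfl
    · have d : H.Adj u v := by simpa [rep, q, Ne.symm q, n, H.adj_comm v] using d
      have a' : c ∈ S u := a ▸ (e u (i, r)).2
      have b' : c ∈ S v := b ▸ (e v (j, s)).2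
      have := w2 u v d
      have := hp u v d
      have := h0 u
      have := h0 v
      simp only [hS, mem_union, mem_product, mem_Ico, mem_range, mem_insert, mem_singleton, C] at *
      omega
  · refine le_trans (by simp) (card_le_card_of_injOn (s := (univ : Finset (Fin 4)))
      (fun r => (e a.1 (a.2, r)).1) (fun r _ => ?_) fun r _ s _ h => ?_)
    · have := (e a.1 (a.2, r)).2
      have := w1 a.1
      simp only [hS, mem_union, mem_product, mem_Ico, mem_range, mem_insert, mem_singleton, coe_filter,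
        mem_filter, mem_univ, true_and, Set.mem_ofPred_eq, exists_apply_eq_apply, and_true] at *
      omega
    · exact (Prod.ext_iff.1 ((e _).injective (Subtype.ext h))).2

lemma low [Nonempty V] (h3 : H.CliqueFree 3) {a : ℕ} (h : ∀ I : Finset V, H.IsIndepSet I → #I ≤ a)
    (e : chiF (rep H 1) / (rep H 1).cliqueNum ≤ 5 / 4) : 2 * Fintype.card V ≤ 5 * a := by
  have ij : ∀ a b : Σ v, Fin ((1 : V → ℕ) v), a.1 = b.1 → a = b := by
    rintro ⟨a, i⟩ ⟨b, j⟩ rfl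
    exact congrArg _ (Subsingleton.elim (α := Fin 1) _ _)
  have ad : ∀ a b, (rep H 1).Adj a b ↔ H.Adj a.1 b.1 := fun a b => by
    simp only [rep, fromRel_adj]
    exact ⟨fun ⟨n, h⟩ => (h.elim id fun h => h.imp Eq.symm Adj.symm).resolve_left (mt (ij a b) n),
      fun h => ⟨fun e => h.ne (e ▸ rfl), Or.inl (Or.inr h)⟩⟩
  obtain ⟨s, hs⟩ := (rep H 1).exists_isNClique_cliqueNum
  have c2 : (rep H 1).cliqueNum ≤ 2 := by
    by_contra c
    have : (rep H 1).CliqueFree 3 := fun t ht => by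
      obtain ⟨a, b, d, p, q, r, -⟩ := is3Clique_iff.1 ht
      exact h3 _ (is3Clique_iff.2 ⟨_, _, _, (ad _ _).1 p, (ad _ _).1 q, (ad _ _).1 r, rfl⟩)
    exact this.mono (by omega) s hs
  have v := Classical.arbitrary V
  have c1 : 1 ≤ (rep H 1).cliqueNum := by
    have : (rep H 1).IsClique (({⟨v, (0 : Fin 1)⟩} : Finset (Σ v, Fin ((1 : V → ℕ) v))) : Set _) := by simp
    simpa using this.card_le_cliqueNum
  have a1 : 1 ≤ a := by simpa using h {v} (by simp)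
  have l := le_chi (H := rep H 1) (a := a) fun I hI => by
    rw [← card_image_of_injective I ij]
    refine h _ fun u p w q n d => ?_
    simp only [coe_image, Set.mem_image] at p q
    obtain ⟨u, p, rfl⟩ := p
    obtain ⟨w, q, rfl⟩ := q
    exact hI p q (fun e => n (e ▸ rfl)) ((ad _ _).2 d)
  rw [div_le_iff₀ (by positivity)] at e l
  have : ((rep H 1).cliqueNum : ℝ) ≤ 2 := by exact_mod_cast c2
  have : (1 : ℝ) ≤ a := by exact_mod_cast a1
  simp only [Fintype.card_sigma, Pi.one_apply, Fintype.card_fin, sum_const, card_univ, smul_eq_mul,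
    mul_one] at l
  have : 2 * (Fintype.card V : ℝ) ≤ 5 * a := by nlinarith
  exact_mod_cast this

end

abbrev U := ℕ × ℕ
abbrev Vy := (U × U) × ℕ

def d0 (φ : F) (u v : U) : Prop := (u.1 = 0 ∧ v.1 = 0 ∧ u.2 < v.2 ∧ v.2 < 5) ∨
  (u.1 = 1 ∧ v.1 = 0 ∧ (v.2 = 3 ∨ v.2 = 4)) ∨ (u.1 = 2 ∧ v.1 = 0 ∧ (v.2 = 1 ∨ v.2 = 2 ∨ v.2 = 4)) ∨
  (u.1 = 1 ∧ v.1 = 1 ∧ u.2 < v.2 ∧ u.2 / 3 = v.2 / 3) ∨ (u.1 = 1 ∧ v.1 = 2 ∧ u.2 = v.2) ∨
  (u.1 = 2 ∧ v.1 = 2 ∧ cf φ u.2 v.2)
def e0 (φ : F) (u v : U) : Prop := d0 φ u v ∨ d0 φ v u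
def sd (φ : F) (p q : U × U) : Prop :=
  (p.1 = p.2 ∧ q.1 = p.1 ∧ e0 φ q.1 q.2) ∨ (q.1 = p.2 ∧ q.2 = p.1 ∧ e0 φ p.1 p.2)
def rr (φ : F) (p q : Vy) : Prop := (p.1 = q.1 ∧ C p.2 q.2) ∨ ((sd φ p.1 q.1 ∨ sd φ q.1 p.1) ∧ p.2 = q.2)
instance (φ : F) : DecidableRel (d0 φ) := fun _ _ => by unfold d0; infer_instance
instance (φ : F) : DecidableRel (sd φ) := fun _ _ => by unfold sd e0; infer_instance
instance (φ : F) : DecidableRel (rr φ) := fun _ _ => by unfold rr; infer_instance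
def us (φ : F) : List U := List.range 3 ×ˢ List.range (3 * φ.length + 5)
def verts (φ : F) : List Vy := (us φ ×ˢ us φ) ×ˢ List.range 5
def red (φ : F) : List (List Bool) := mat (verts φ) fun p q => decide (rr φ p q)

lemma red_pt : PT red := by
  have b1 : PT verts := by unfold verts us; fun_prop
  have b2 : PP fun z : F × U × U => e0 z.1 z.2.1 z.2.2 := by unfold e0 d0; fun_prop
  refine PT.mat b1 (PP.decide ?_)
  unfold rr sd C; fun_prop

variable {φ : F}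

lemma e0i (u : U) : ¬ e0 φ u u := by have := @cf_irrefl φ u.2; unfold e0 d0; grind

def hh (a b : ℕ) : ℕ :=
  if a = b then a else if C a b then b else if b = (a + 2) % 5 then (a + 4) % 5 else (a + 1) % 5

lemma t1 : ∀ a < 5, ∀ b < 5, hh a b < 5 ∧ (a ≠ b → C (hh a a) (hh a b) ∧ C (hh a b) (hh b a)) := by decide

lemma fw (h : Sat3 φ) : ∃ p : Vy → ℕ, (∀ v, p v < 5) ∧ ∀ u v, rr φ u v → C (p u) (p v) := by
  obtain ⟨τ, h⟩ := h
  have : ∀ c, ∃ o, o / 3 = c ∧ (c < φ.length → τ (lit φ o).1 = (lit φ o).2) := fun c => by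
    by_cases hc : c < φ.length
    · rcases h φ[c] (List.getElem_mem _) with e | e | e
      · exact ⟨3 * c, by omega, fun _ => by simpa [lit, hc] using e⟩
      · exact ⟨3 * c + 1, by omega, fun _ => by simpa [lit, hc, Nat.mul_add_div] using e⟩
      · exact ⟨3 * c + 2, by omega, fun _ => by simpa [lit, hc, Nat.mul_add_div] using e⟩
    · exact ⟨3 * c, by omega, fun e => absurd e hc⟩
  choose o o1 o2 using this
  obtain ⟨χ, c1, c2⟩ : ∃ χ : U → ℕ, (∀ u, χ u < 5) ∧ ∀ u v, d0 φ u v → χ u ≠ χ v := by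
    refine ⟨fun u => if u.1 = 0 then u.2 % 5 else if u.1 = 1 then (u.2 + 3 - o (u.2 / 3)) % 3 else
      if φ.length ≤ u.2 / 3 ∨ τ (lit φ u.2).1 = (lit φ u.2).2 then 3 else 0, fun u => ?_, ?_⟩
    · dsimp only; split_ifs <;> omega
    rintro ⟨a, i⟩ ⟨b, j⟩ e
    have := o1 (i / 3)
    simp only [d0] at e
    rcases e with ⟨rfl, rfl, e⟩ | ⟨rfl, rfl, e⟩ | ⟨rfl, rfl, e⟩ | ⟨rfl, rfl, e, g⟩ | ⟨rfl, rfl, rfl⟩ |
      ⟨rfl, rfl, e1, e2, e3, e4⟩
    · simp; omega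
    · simp; omega
    · simp; split_ifs <;> omega
    · simp [← g]; omega
    · have := o2 (i / 3)
      have : i ≠ o (i / 3) ∨ φ.length ≤ i / 3 ∨ τ (lit φ i).1 = (lit φ i).2 := by grind
      simp; split_ifs <;> grind
    · simp [e3, show ¬ φ.length ≤ i / 3 by omega, show ¬ φ.length ≤ j / 3 by omega]
      revert e4
      cases τ (lit φ j).1 <;> cases (lit φ i).2 <;> cases (lit φ j).2 <;> simp
  have c3 : ∀ p q, sd φ p q → C (hh (χ p.1) (χ p.2)) (hh (χ q.1) (χ q.2)) := by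
    have : ∀ u v, e0 φ u v → χ u ≠ χ v := fun u v e => e.elim (c2 u v) fun e => (c2 v u e).symm
    rintro ⟨a, b⟩ ⟨c, d⟩ e
    simp only [sd] at e
    rcases e with ⟨rfl, rfl, e⟩ | ⟨rfl, rfl, e⟩
    exacts [((t1 _ (c1 _) _ (c1 _)).2 (this _ _ e)).1, ((t1 _ (c1 _) _ (c1 _)).2 (this _ _ e)).2]
  refine ⟨fun v => (hh (χ v.1.1) (χ v.1.2) + v.2) % 5, fun v => by dsimp only; omega, ?_⟩
  rintro ⟨a, i⟩ ⟨b, j⟩ e
  simp only [rr] at e ⊢
  rcases e with ⟨rfl, e⟩ | ⟨e, rfl⟩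
  · unfold C at *; omega
  · have := e.imp (c3 _ _) (c3 _ _)
    unfold C at *; omega

lemma t2 : ∀ p0 < 5, ∀ p1 < 5, p0 ≠ p1 → ∀ p2 < 5, p0 ≠ p2 → p1 ≠ p2 → ∀ p3 < 5, p0 ≠ p3 → p1 ≠ p3 →
    p2 ≠ p3 → ∀ p4 < 5, p0 ≠ p4 → p1 ≠ p4 → p2 ≠ p4 → p3 ≠ p4 → ∀ a < 5,
      a = p0 ∨ a = p1 ∨ a = p2 ∨ a = p3 ∨ a = p4 := by
  intro p0 _ p1 _ _ p2 _ _ _ p3 _ _ _ _ p4 _ _ _ _ _ a h
  have : ({p0, p1, p2, p3, p4} : Finset ℕ) = range 5 :=
    eq_of_subset_of_card_le (by simp [insert_subset_iff, *]) (by simp [*])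
  simpa using this.ge (mem_range.2 h)

lemma bw {c : U × U → ℕ} (h1 : ∀ u ∈ us φ, ∀ v ∈ us φ, c (u, v) < 5)
    (h2 : ∀ u ∈ us φ, ∀ v ∈ us φ, ∀ x ∈ us φ, ∀ y ∈ us φ, sd φ (u, v) (x, y) → C (c (u, v)) (c (x, y))) :
    Sat3 φ := by
  have ne : ∀ a < 3, ∀ i < 3 * φ.length + 5, ∀ b < 3, ∀ j < 3 * φ.length + 5, d0 φ (a, i) (b, j) →
      c ((a, i), a, i) ≠ c ((b, j), b, j) := fun a p i q b r j s e => by
    have u : (a, i) ∈ us φ := by simp [us, *]
    have v : (b, j) ∈ us φ := by simp [us, *]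
    have := h2 _ u _ u _ u _ v (Or.inl ⟨rfl, rfl, Or.inl e⟩)
    have := h2 _ u _ v _ v _ u (Or.inr ⟨rfl, rfl, Or.inl e⟩)
    have := h2 _ v _ v _ v _ u (Or.inl ⟨rfl, rfl, Or.inr e⟩)
    have := h1 _ u _ u
    have := h1 _ u _ v
    have := h1 _ v _ u
    unfold C at *; omega
  have lt : ∀ a < 3, ∀ i < 3 * φ.length + 5, c ((a, i), a, i) < 5 := fun a p i q =>
    h1 _ (by simp [us, *]) _ (by simp [us, *])
  obtain ⟨χ, hχ⟩ : ∃ χ : ℕ → ℕ → ℕ, ∀ a i, c ((a, i), a, i) = χ a i := ⟨_, fun _ _ => rfl⟩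
  simp only [hχ] at ne lt
  have n0 : ∀ i, ∀ j < 5, i < j → χ 0 i ≠ χ 0 j := fun i j p q =>
    ne 0 (by omega) i (by omega) 0 (by omega) j (by omega) (by simp [d0, *])
  have all := t2 _ (lt 0 (by omega) 0 (by omega)) _ (lt 0 (by omega) 1 (by omega)) (by simp [n0])
    _ (lt 0 (by omega) 2 (by omega)) (by simp [n0]) (by simp [n0]) _ (lt 0 (by omega) 3 (by omega))
    (by simp [n0]) (by simp [n0]) (by simp [n0]) _ (lt 0 (by omega) 4 (by omega)) (by simp [n0])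
    (by simp [n0]) (by simp [n0]) (by simp [n0])
  have a1 : ∀ o < 3 * φ.length, (χ 1 o = χ 0 0 ∧ χ 2 o = χ 0 3) ∨ χ 1 o = χ 0 1 ∨ χ 1 o = χ 0 2 :=
    fun o l => by
      have := all _ (lt 1 (by omega) o (by omega))
      have := all _ (lt 2 (by omega) o (by omega))
      have := ne 1 (by omega) o (by omega) 0 (by omega) 3 (by omega) (by simp [d0])
      have := ne 1 (by omega) o (by omega) 0 (by omega) 4 (by omega) (by simp [d0])
      have := ne 2 (by omega) o (by omega) 0 (by omega) 1 (by omega) (by simp [d0])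
      have := ne 2 (by omega) o (by omega) 0 (by omega) 2 (by omega) (by simp [d0])
      have := ne 2 (by omega) o (by omega) 0 (by omega) 4 (by omega) (by simp [d0])
      have := ne 1 (by omega) o (by omega) 2 (by omega) o (by omega) (by simp [d0])
      grind
  have : ∀ k < φ.length, ∃ o, o / 3 = k ∧ χ 2 o = χ 0 3 := fun k l => by
    have a := a1 (3 * k) (by omega)
    have b := a1 (3 * k + 1) (by omega)
    have d := a1 (3 * k + 2) (by omega)
    have := ne 1 (by omega) (3 * k) (by omega) 1 (by omega) (3 * k + 1) (by omega) (by simp [d0]; omega)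
    have := ne 1 (by omega) (3 * k) (by omega) 1 (by omega) (3 * k + 2) (by omega) (by simp [d0]; omega)
    have := ne 1 (by omega) (3 * k + 1) (by omega) 1 (by omega) (3 * k + 2) (by omega) (by simp [d0]; omega)
    by_contra! n
    have := n (3 * k) (by omega)
    have := n (3 * k + 1) (by omega)
    have := n (3 * k + 2) (by omega)
    grind
  choose! o o1 o2 using this
  exact sat_of o1 fun k l j l' e => ne 2 (by omega) _ (by have := e.1; omega) 2 (by omega) _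
    (by have := e.2.1; omega) (by simp [d0, e]) ((o2 k l).trans (o2 j l').symm)

lemma tri {p q r : Vy} (a : rr φ p q) (b : rr φ p r) (c : rr φ q r) : False := by
  have e := @e0i φ
  have gi : ∀ p, ¬ sd φ p p := fun p => by simp only [sd]; grind
  have gt : ∀ p q r, sd φ p q ∨ sd φ q p → sd φ p r ∨ sd φ r p → sd φ q r ∨ sd φ r q → False := by
    rintro ⟨a, b⟩ ⟨c, d⟩ ⟨x, y⟩
    simp only [sd]; grind
  have ci : ∀ i, ¬ C i i := fun i => by unfold C; omega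
  have ct : ∀ i j k, C i j → C i k → C j k → False := fun i j k => by unfold C; omega
  unfold rr at *
  grind

lemma t3 : ∀ T ∈ (range 5).powerset, (∀ i ∈ T, ∀ j ∈ T, ¬ C i j) →
    #T ≤ 2 ∧ (#T < 2 ∨ ∃ c < 5, (c + 1) % 5 ∈ T ∧ (c + 4) % 5 ∈ T) := by decide +kernel

theorem result : NPHard (Lang (ImpLe (5 / 4))) := by
  classical
  refine (hard_sat3.red red_pt fun φ => ?_).npHard
  have n1 : (us φ).Nodup := List.nodup_range.product List.nodup_range
  obtain ⟨h0, f, h1, h2, h3, -⟩ := graph_kit (verts φ) (rr φ)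
    (fun p q h => h.imp (fun h => ⟨h.1.symm, h.2.symm⟩) fun h => ⟨h.1.symm, h.2.symm⟩)
    (fun p h => by have := @e0i φ; simp only [rr, sd, C] at h; grind)
    ((n1.product n1).product List.nodup_range) (M := red φ) rfl
  refine ⟨fun h => ⟨h0, fun x _ => ?_⟩, fun ⟨_, h⟩ => ?_⟩
  · obtain ⟨p, p1, p2⟩ := fw h
    exact up (p := fun a => p (f a)) (fun _ => p1 _) (fun u v e => p2 _ _ ((h1 _ _).1 e)) x
  obtain ⟨B, hB⟩ : ∃ B, B = (us φ).toFinset ×ˢ (us φ).toFinset := ⟨_, rfl⟩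
  have mv : ∀ b i, (b, i) ∈ verts φ ↔ b ∈ B ∧ i < 5 := fun ⟨_, _⟩ i => by simp [verts, hB]
  have B0 : 0 < #B := card_pos.2 ⟨((0, 0), 0, 0), by simp [hB, us]⟩
  have cv : Fintype.card (Fin (red φ).length) = #B * 5 := by
    simp [red, verts, hB, List.length_product, List.toFinset_card_of_nodup n1]
  have : Nonempty (Fin (red φ).length) := Fintype.card_pos_iff.1 (by omega)
  by_contra c
  have := low (H := graphOf (red φ)) (a := 2 * #B - 1) (fun t ht => ?_) (fun I hI => ?_)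
    (h 1 one_ne_zero)
  · omega
  · obtain ⟨a, b, d, p, q, r, -⟩ := is3Clique_iff.1 ht
    exact tri ((h1 _ _).1 p) ((h1 _ _).1 q) ((h1 _ _).1 r)
  obtain ⟨T, hT⟩ : ∃ T : U × U → Finset ℕ, ∀ b i, i ∈ T b ↔ ∃ a ∈ I, f a = (b, i) :=
    ⟨fun b => {i ∈ range 5 | ∃ a ∈ I, f a = (b, i)}, fun b i => by
      simp only [mem_filter, mem_range, and_iff_right_iff_imp]
      exact fun ⟨a, _, e⟩ => ((mv _ _).1 ((h2 _).1 ⟨a, e⟩)).2⟩
  have na : ∀ b i b' i', i ∈ T b → i' ∈ T b' → ¬ rr φ (b, i) (b', i') := fun b i b' i' p q r => by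
    obtain ⟨a, p, e⟩ := (hT _ _).1 p
    obtain ⟨a', q, e'⟩ := (hT _ _).1 q
    have := (h1 a a').2 (by rwa [e, e'])
    exact hI p q this.ne this
  have tb := fun b => t3 (T b) (mem_powerset.2 fun i h => by
    obtain ⟨a, -, e⟩ := (hT _ _).1 h
    exact mem_range.2 ((mv _ _).1 ((h2 _).1 ⟨a, e⟩)).2) fun i p j q r => na _ _ _ _ p q (Or.inl ⟨rfl, r⟩)
  have c1 : #I ≤ ∑ b ∈ B, #(T b) := by
    rw [← card_sigma]
    exact card_le_card_of_injOn (fun a => ⟨(f a).1, (f a).2⟩) (fun a p => by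
      simp only [coe_sigma, Set.mem_sigma_iff, mem_coe, hT]
      exact ⟨((mv _ _).1 ((h2 _).1 ⟨a, rfl⟩)).1, a, p, rfl⟩) fun a _ b _ e => h3 (by
        simpa [Prod.ext_iff] using e)
  obtain ⟨b, b1, b2⟩ : ∃ b ∈ B, #(T b) < 2 := by
    by_contra! n
    choose! k k1 k2 k3 using fun b p => (tb b).2.resolve_left (n b p).not_gt
    refine c (bw (c := k) (fun u p v q => k1 _ (by simp [*])) fun u p v q x r y s e => ?_)
    have m1 : (u, v) ∈ B := by simp [*]
    have m2 : (x, y) ∈ B := by simp [*]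
    have n : ∀ i j, i ∈ T (u, v) → j ∈ T (x, y) → i ≠ j := fun i j p q h =>
      na _ i _ j p q (Or.inr ⟨Or.inl e, h⟩)
    have := n _ _ (k2 _ m1) (k2 _ m2)
    have := n _ _ (k2 _ m1) (k3 _ m2)
    have := n _ _ (k3 _ m1) (k2 _ m2)
    have := k1 _ m1
    have := k1 _ m2
    unfold C; omega
  have := sum_lt_sum (fun b (_ : b ∈ B) => (tb b).1) ⟨b, b1, b2⟩
  simp at this
  omega

end Pool.Agent.Results.MP_b9c7f5_lc.NPHard
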